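import Pool.Agent.Q155.CW.Layer

/-!
# Progression-free sets and polynomials of low degree

The input is a quantitative form of the Chevalley-Warning theorem: every point of `F_p^n` is the
first term of many `k`-term progressions on which `r` given polynomials are constant, as soon as
`n` is larger than `∑ min ((k-1) d_i, d_i (d_i + 1) / 2)`.
-/

set_option autoImplicit false

open MvPolynomial Finset

namespace Pool.Agent.Results.MP_b30443_co.AlgebraicSets

/-- `A` contains no nontrivial progression of length `k`. -/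
def APFree {p n : ℕ} (k : ℕ) (A : Finset (Fin n → ZMod p)) : Prop :=
  ∀ x y : Fin n → ZMod p, (∀ j < k, x + j • y ∈ A) → y = 0

/-- Membership of `x` in `A` depends only on the values `f_i(x)`. -/
def DefinedBy {p n r : ℕ} (f : Fin r → MvPolynomial (Fin n) (ZMod p))
    (A : Finset (Fin n → ZMod p)) : Prop :=
  ∀ x y : Fin n → ZMod p, (∀ i, eval x (f i) = eval y (f i)) → x ∈ A → y ∈ A

/-- The sum over `i` of the smaller of `(k - 1) d_i` and `d_i (d_i + 1) / 2`, where `d_i` is the
total degree of `f_i`. -/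
def complexity {p n r : ℕ} (k : ℕ) (f : Fin r → MvPolynomial (Fin n) (ZMod p)) : ℕ :=
  ∑ i, min ((k - 1) * (f i).totalDegree) ((f i).totalDegree * ((f i).totalDegree + 1) / 2)

open Classical in
/-- The set of the differences `y` such that `f_1, …, f_r` are constant on the progression
`x, x + y, …, x + (k - 1) y`. -/
noncomputable def differences {p n r : ℕ} [NeZero p] (k : ℕ)
    (f : Fin r → MvPolynomial (Fin n) (ZMod p)) (x : Fin n → ZMod p) :
    Finset (Fin n → ZMod p) :=
  univ.filter fun y => ∀ j < k, ∀ i, eval (x + j • y) (f i) = eval x (f i)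

section

variable {p : ℕ} [hp : Fact p.Prime]

theorem one_fin {n r : ℕ} (k : ℕ) (f : Fin r → MvPolynomial (Fin n) (ZMod p))
    (x : Fin n → ZMod p) :
    (p - 1) * p ^ n ≤ (p ^ (complexity k f + 1) - 1) * (differences k f x).card := by
  have h := Q155.CW.ap_fibre k f x
  have e : (differences k f x).card = _ := congrArg Finset.card (differences.eq_1 k f x)
  rw [e]
  exact h

theorem two_fin {n r : ℕ} (k : ℕ) (f : Fin r → MvPolynomial (Fin n) (ZMod p))
    (hn : complexity k f < n) (F A : Finset (Fin n → ZMod p)) (hF : DefinedBy f F)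
    (hA : APFree k A) :
    (p - 2) * F.card ≤ k * p ^ (complexity k f + 1) * (F \ A).card := by
  have hp1 : 1 ≤ p := hp.out.one_lt.le
  have hp2 : 2 ≤ p := hp.out.two_le
  have h := Q155.CW.count (X := Fin n → ZMod p) (Y := Fin n → ZMod p) k
    (fun j x y => x + (j : ℕ) • y) (fun j y => add_left_injective _) F A
    (differences k f) (by
      intro x hx y hy j
      rw [differences, mem_filter] at hy
      exact hF x _ (fun i => (hy.2 j j.2 i).symm) hx)
    (fun x y h => hA x y fun j hj => h ⟨j, hj⟩) ((p - 1) * p ^ n)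
    (p ^ (complexity k f + 1) - 1) (fun x _ => one_fin k f x)
  have hcard : Fintype.card (Fin n → ZMod p) = p ^ n := by
    rw [Fintype.card_fun, ZMod.card, Fintype.card_fin]
  rw [hcard] at h
  have hle : p ^ (complexity k f + 1) ≤ p ^ n := Nat.pow_le_pow_right hp1 hn
  have hpos : 0 < p ^ n := Nat.pow_pos (by omega)
  set Q := p ^ (complexity k f + 1) with hQ
  set P := p ^ n with hP
  set a := F.card with ha
  set b := (F \ A).card with hb
  have h1 : (Q - 1) * (k * ((P - 1) * b)) ≤ Q * (k * (P * b)) :=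
    Nat.mul_le_mul (Nat.sub_le _ _) (Nat.mul_le_mul_left _ (Nat.mul_le_mul_right _ (Nat.sub_le _ _)))
  have h2 : (Q - 1) * a ≤ P * a := Nat.mul_le_mul_right _ ((Nat.sub_le _ _).trans hle)
  have h3 : (p - 1) * P * a ≤ Q * (k * (P * b)) + P * a := h.trans (Nat.add_le_add h1 h2)
  have h4 : (p - 1) * P * a = (p - 2) * P * a + P * a := by
    have : p - 1 = (p - 2) + 1 := by omega
    rw [this]; ring
  have h5 : P * ((p - 2) * a) ≤ P * (k * Q * b) := by
    have e1 : P * ((p - 2) * a) = (p - 2) * P * a := by ring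
    have e2 : P * (k * Q * b) = Q * (k * (P * b)) := by ring
    rw [e1, e2]
    omega
  exact Nat.le_of_mul_le_mul_left h5 hpos

theorem three_fin {n r : ℕ} (k : ℕ) (f : Fin r → MvPolynomial (Fin n) (ZMod p))
    (A : Finset (Fin n → ZMod p)) (hne : A.Nonempty) (hf : DefinedBy f A) (hA : APFree k A) :
    n ≤ complexity k f := by
  classical
  by_contra hcon
  push Not at hcon
  have hp1 : 1 ≤ p := hp.out.one_lt.le
  obtain ⟨x, hx⟩ := hne
  have h1 := one_fin k f x
  have h2 : differences k f x ⊆ {0} := by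
    intro y hy
    rw [mem_singleton]
    rw [differences, mem_filter] at hy
    exact hA x y fun j hj => hf x _ (fun i => (hy.2 j hj i).symm) hx
  have h3 : (differences k f x).card ≤ 1 := (card_le_card h2).trans (card_singleton _).le
  have hle : p ^ (complexity k f + 1) ≤ p ^ n := Nat.pow_le_pow_right hp1 hcon
  have hpos : 0 < p ^ (complexity k f + 1) := Nat.pow_pos (by omega)
  have hp2 : 1 ≤ p - 1 := by have := hp.out.two_le; omega
  have h4 : p ^ n ≤ (p - 1) * p ^ n := Nat.le_mul_of_pos_left _ hp2
  have h5 : (p ^ (complexity k f + 1) - 1) * (differences k f x).card ≤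
      p ^ (complexity k f + 1) - 1 := by
    calc _ ≤ (p ^ (complexity k f + 1) - 1) * 1 := Nat.mul_le_mul_left _ h3
      _ = _ := mul_one _
  omega

/-- a nonzero polynomial of degree less than `k ≤ p` does not vanish at `0, 1, …, k-1` -/
theorem not_const {k d : ℕ} (hdk : d < k) (hkp : k ≤ p) (g : Polynomial (ZMod p))
    (h1 : 1 ≤ g.natDegree) (h2 : g.natDegree ≤ d) (c : ZMod p)
    (h : ∀ j < k, g.eval (j : ZMod p) = c) : False := by
  classical
  have hg : g - Polynomial.C c ≠ 0 := by
    intro h0
    rw [sub_eq_zero] at h0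
    rw [h0, Polynomial.natDegree_C] at h1
    omega
  have hs : (range k).image (fun j : ℕ => (j : ZMod p)) ⊆ (g - Polynomial.C c).roots.toFinset := by
    intro t ht
    obtain ⟨j, hj, rfl⟩ := mem_image.mp ht
    rw [Multiset.mem_toFinset, Polynomial.mem_roots hg, Polynomial.IsRoot, Polynomial.eval_sub,
      Polynomial.eval_C, h j (mem_range.mp hj), sub_self]
  have hinj : Set.InjOn (fun j : ℕ => (j : ZMod p)) (range k) := by
    intro i hi j hj hij
    have hi' : i < p := lt_of_lt_of_le (mem_range.mp (mem_coe.mp hi)) hkp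
    have hj' : j < p := lt_of_lt_of_le (mem_range.mp (mem_coe.mp hj)) hkp
    have := congrArg ZMod.val hij
    simpa [ZMod.val_cast_of_lt hi', ZMod.val_cast_of_lt hj'] using this
  have hc := card_le_card hs
  rw [card_image_of_injOn hinj, card_range] at hc
  have h3 : (g - Polynomial.C c).roots.toFinset.card ≤ (g - Polynomial.C c).natDegree :=
    (Multiset.toFinset_card_le _).trans (Polynomial.card_roots' _)
  rw [Polynomial.natDegree_sub_C] at h3
  omega

theorem four_mem (k r d : ℕ) (hdk : d < k) (hkp : k ≤ p) :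
    ∃ f : Fin r → MvPolynomial (Fin (r * (d * (d + 1) / 2))) (ZMod p),
      (∀ i, (f i).totalDegree ≤ d) ∧ ∃ A : Finset (Fin (r * (d * (d + 1) / 2)) → ZMod p),
        A.Nonempty ∧ DefinedBy f A ∧ APFree k A := by
  classical
  obtain ⟨D, hD, F, hFd, hF⟩ := Q155.CW.layer (ZMod p) d
  have hD' : d * (d + 1) / 2 = D := by omega
  rw [hD']
  let f : Fin r → MvPolynomial (Fin (r * D)) (ZMod p) :=
    fun i => rename (fun s => finProdFinEquiv (i, s)) F
  have hev : ∀ i x, eval x (f i) = eval (fun s => x (finProdFinEquiv (i, s))) F := by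
    intro i x
    simp only [f]
    rw [eval_rename]
    rfl
  refine ⟨f, fun i => (totalDegree_rename_le _ _).trans hFd,
    univ.filter fun x => ∀ i, eval x (f i) = eval 0 (f i), ⟨0, ?_⟩, ?_, ?_⟩
  · rw [mem_filter]
    exact ⟨mem_univ _, fun _ => rfl⟩
  · intro x y hxy hx
    rw [mem_filter] at hx ⊢
    exact ⟨mem_univ _, fun i => (hxy i).symm.trans (hx.2 i)⟩
  · intro x y hxy
    have hblock : ∀ i, (fun s => y (finProdFinEquiv (i, s))) = (0 : Fin D → ZMod p) := by
      intro i
      by_contra hne
      obtain ⟨g, hg1, hg2, hg3⟩ := hF (fun s => x (finProdFinEquiv (i, s)))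
        (fun s => y (finProdFinEquiv (i, s))) hne
      refine not_const hdk hkp g hg1 hg2 (eval 0 (f i)) fun j hj => ?_
      have h1 := (mem_filter.mp (hxy j hj)).2 i
      rw [← h1, hev, ← hg3]
      congr 2
      funext s
      simp
    funext q
    obtain ⟨⟨i, s⟩, rfl⟩ := finProdFinEquiv.surjective q
    exact congrFun (hblock i) s

theorem complexity_le {n r : ℕ} (k d : ℕ) (f : Fin r → MvPolynomial (Fin n) (ZMod p))
    (hf : ∀ i, (f i).totalDegree ≤ d) : complexity k f ≤ r * (d * (d + 1) / 2) := by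
  have h1 : ∀ i, min ((k - 1) * (f i).totalDegree)
      ((f i).totalDegree * ((f i).totalDegree + 1) / 2) ≤ d * (d + 1) / 2 := fun i =>
    (min_le_right _ _).trans (Nat.div_le_div_right (Nat.mul_le_mul (hf i)
      (Nat.add_le_add_right (hf i) 1)))
  refine (sum_le_sum fun i _ => h1 i).trans (le_of_eq ?_)
  rw [sum_const, card_univ, Fintype.card_fin, smul_eq_mul]

end

/-- **Progression-free sets and polynomials of low degree.** -/
theorem result (p : ℕ) [Fact p.Prime] (k : ℕ) :
    (∀ (n r : ℕ) (f : Fin r → MvPolynomial (Fin n) (ZMod p)),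
      (∀ x, (p - 1) * p ^ n ≤ (p ^ (complexity k f + 1) - 1) * (differences k f x).card) ∧
      (complexity k f < n → ∀ F A : Finset (Fin n → ZMod p), DefinedBy f F → APFree k A →
        (p - 2) * F.card ≤ k * p ^ (complexity k f + 1) * (F \ A).card) ∧
      (∀ A : Finset (Fin n → ZMod p), A.Nonempty → DefinedBy f A → APFree k A →
        n ≤ complexity k f)) ∧
    (∀ r d : ℕ, d < k → k ≤ p →
      IsGreatest {n : ℕ | ∃ f : Fin r → MvPolynomial (Fin n) (ZMod p),
        (∀ i, (f i).totalDegree ≤ d) ∧ ∃ A : Finset (Fin n → ZMod p),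
          A.Nonempty ∧ DefinedBy f A ∧ APFree k A} (r * (d * (d + 1) / 2))) := by
  refine ⟨fun n r f => ⟨one_fin k f, fun hn F A hF hA => two_fin k f hn F A hF hA,
    fun A hne hf hA => three_fin k f A hne hf hA⟩, fun r d hdk hkp => ⟨four_mem k r d hdk hkp, ?_⟩⟩
  rintro n ⟨f, hfd, A, hne, hf, hA⟩
  exact (three_fin k f A hne hf hA).trans (complexity_le k d f hfd)

end Pool.Agent.Results.MP_b30443_co.AlgebraicSets
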