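import Pool.Agent.Q247.BW.LineFree

set_option autoImplicit false

/-!
# Progression-free subsets of `F_p^n` and machines with few states

Nondeterministic machines with a bounded number `w` of states read the `n` coordinates of a point of
`F_p^n` once, in an arbitrary order; the transitions may depend on the time. Let `2 ≤ k ≤ p`.

* Unions of `T` sets decided by such machines which contain no `k`-term progressions have at most
  `2 T w p ^ n 2 ^ (- ⌊n / m⌋)` elements, `m = m(p, w)`: an exponential saving.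
* *Every* set without `k`-term progressions has small relative density in every set `F` decided by
  such a machine which has at least `p ^ n 2 ^ (- c n)` elements.
* The same for unions of few product sets.

Proof. In a product set `F` the fibres in the directions of a block of coordinates have the same
size; if `F` is not exponentially small then they are large for at least half of the blocks, and
there the density Hales-Jewett theorem applies.
-/

namespace Pool.Agent.Results.MP_b30443_co.BoundedWidthMachines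

open Finset Function Pool.Agent.Q247.BW

/-- `A ⊆ F_p^n` contains no nontrivial `k`-term arithmetic progression
`x, x + y, …, x + (k - 1) y`, `y ≠ 0`. -/
def APFree (k : ℕ) {p n : ℕ} (A : Finset (Fin n → ZMod p)) : Prop :=
  ∀ x y : Fin n → ZMod p, (∀ j : ℕ, j < k → x + j • y ∈ A) → y = 0

/-- `B` is decided by a nondeterministic machine with at most `w` states that reads the `n`
coordinates once, in the given order. -/
def Decided (w : ℕ) {p n : ℕ} (order : Fin n ≃ Fin n) (B : Finset (Fin n → ZMod p)) : Prop :=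
  ∃ (Q : Type) (_ : Fintype Q) (M : Machine Q (ZMod p)), Fintype.card Q ≤ w ∧
    ∀ x, x ∈ B ↔ M.Accepts order x

/-- `P` is a product set with respect to the sets `J j` of coordinates and the set of the remaining
coordinates: the coordinates in `J j` of a point of `P` may be replaced by those of another point. -/
def IsProduct {k p n : ℕ} (J : Fin k → Finset (Fin n)) (P : Finset (Fin n → ZMod p)) : Prop :=
  ∀ j, ∀ x ∈ P, ∀ y ∈ P, (fun i => if i ∈ J j then y i else x i) ∈ P

theorem lineFree_of_apFree {k p n : ℕ} [Fact p.Prime] (_hkp : k ≤ p)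
    {A : Finset (Fin n → ZMod p)} (hA : APFree k A) : LineFree A := by
  rintro V ⟨i, hi⟩
  by_contra hcon
  push Not at hcon
  have h1 := hA (fun l => Sum.elim id (fun _ => 0) (V l))
    (fun l => Sum.elim (fun _ => 0) (fun _ => 1) (V l)) ?_
  · have h2 := congrFun h1 i
    simp only [hi, Sum.elim_inr, Pi.zero_apply] at h2
    exact one_ne_zero h2
  · intro j _
    convert hcon (j : ZMod p) using 1
    funext l
    rw [Pi.add_apply, Pi.smul_apply]
    rcases V l with b | b <;> simp

/-- **Theorem.** Let `p` be prime, `w ≥ 1`.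
(1) For every `δ > 0` there is `m ≥ 1` such that for all `n`, `T`, all `k` with `2 ≤ k ≤ p`, all
`A ⊆ F_p^n` without `k`-term progressions and all unions `F ⊆ F_p^n` of `T` sets decided by
nondeterministic machines with at most `w` states that read the coordinates once, in a common
arbitrary order, `|A ∩ F| ≤ δ |F| + T w p^n 2^(-⌊n / m⌋)`.
(2) There is `m ≥ 1` such that for all `n`, `T` and `2 ≤ k ≤ p`: if a set `A ⊆ F_p^n` without `k`-term
progressions is a union of `T` sets decided by such machines (the orders may be different), then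
`|A| ≤ 2 T w p^n 2^(-⌊n / m⌋)`.
(3) For every `δ ∈ (0, 1]` there is `m ≥ 1` such that for all disjoint sets `J_1, …, J_r` of at least
`m` coordinates, all unions `F` of `T` product sets with respect to them and all `A ⊆ F_p^n` without
`k`-term progressions, `2 ≤ k ≤ p`, `|A ∩ F| ≤ δ |F| + T δ^r p^n`. -/
theorem result :
    (∀ (p : ℕ) [Fact p.Prime] (w : ℕ), 1 ≤ w → ∀ δ : ℝ, 0 < δ → ∃ m : ℕ, 1 ≤ m ∧
      ∀ (n T k : ℕ), 2 ≤ k → k ≤ p → ∀ (order : Fin n ≃ Fin n) (A F : Finset (Fin n → ZMod p))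
        (B : Fin T → Finset (Fin n → ZMod p)), APFree k A → (∀ s, Decided w order (B s)) →
        (∀ x, x ∈ F ↔ ∃ s, x ∈ B s) →
        ((A ∩ F).card : ℝ) ≤ δ * F.card + T * w * (p : ℝ) ^ n * (1 / 2 : ℝ) ^ (n / m)) ∧
    (∀ (p : ℕ) [Fact p.Prime] (w : ℕ), 1 ≤ w → ∃ m : ℕ, 1 ≤ m ∧
      ∀ (n T k : ℕ), 2 ≤ k → k ≤ p → ∀ (order : Fin T → (Fin n ≃ Fin n))
        (A : Finset (Fin n → ZMod p)) (B : Fin T → Finset (Fin n → ZMod p)), APFree k A →
        (∀ s, Decided w (order s) (B s)) → (∀ x, x ∈ A ↔ ∃ s, x ∈ B s) →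
        (A.card : ℝ) ≤ 2 * T * w * (p : ℝ) ^ n * (1 / 2 : ℝ) ^ (n / m)) ∧
    (∀ (p : ℕ) [Fact p.Prime] (δ : ℝ), 0 < δ → δ ≤ 1 → ∃ m : ℕ, 1 ≤ m ∧
      ∀ (n r T k : ℕ), 2 ≤ k → k ≤ p → ∀ (J : Fin r → Finset (Fin n)),
        (∀ j j', j ≠ j' → Disjoint (J j) (J j')) → (∀ j, m ≤ (J j).card) →
        ∀ (A F : Finset (Fin n → ZMod p)) (P : Fin T → Finset (Fin n → ZMod p)), APFree k A →
        (∀ s, IsProduct J (P s)) → (∀ x, x ∈ F ↔ ∃ s, x ∈ P s) →
        ((A ∩ F).card : ℝ) ≤ δ * F.card + T * δ ^ r * (p : ℝ) ^ n) := by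
  classical
  have h1 : ∀ (p : ℕ) [Fact p.Prime] (w : ℕ), 1 ≤ w → ∀ δ : ℝ, 0 < δ → ∃ m : ℕ, 1 ≤ m ∧
      ∀ (n T k : ℕ), 2 ≤ k → k ≤ p → ∀ (order : Fin n ≃ Fin n) (A F : Finset (Fin n → ZMod p))
        (B : Fin T → Finset (Fin n → ZMod p)), APFree k A → (∀ s, Decided w order (B s)) →
        (∀ x, x ∈ F ↔ ∃ s, x ∈ B s) →
        ((A ∩ F).card : ℝ) ≤ δ * F.card + T * w * (p : ℝ) ^ n * (1 / 2 : ℝ) ^ (n / m) := by
    intro p hp w hw δ hδ
    obtain ⟨m, hm, h⟩ := lineFree_machine (ZMod p) w hw δ hδ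
    refine ⟨m, hm, fun n T k _ hkp order A F B hA hB hF => ?_⟩
    have h2 := h n T order A F B hF hB (lineFree_of_apFree hkp hA)
    rwa [ZMod.card] at h2
  refine ⟨h1, ?_, ?_⟩
  · intro p hp w hw
    obtain ⟨m, hm, h⟩ := h1 p w hw (1 / 2) (by norm_num)
    refine ⟨m, hm, fun n T k hk hkp order A B hA hB hun => ?_⟩
    have h2 : ∀ s, ((B s).card : ℝ) ≤ 2 * (w * (p : ℝ) ^ n * (1 / 2 : ℝ) ^ (n / m)) := by
      intro s
      have h3 := h n 1 k hk hkp (order s) (B s) (B s) (fun _ => B s)
        (fun x y hxy => hA x y fun j hj => (hun _).2 ⟨s, hxy j hj⟩) (fun _ => hB s)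
        (fun x => ⟨fun h => ⟨0, h⟩, fun ⟨_, h⟩ => h⟩)
      rw [inter_self] at h3
      push_cast at h3
      linarith
    have h3 : A.card ≤ ∑ s, (B s).card := by
      refine (card_le_card (t := univ.biUnion B) fun x hx => ?_).trans card_biUnion_le
      obtain ⟨s, hs⟩ := (hun x).1 hx
      exact mem_biUnion.2 ⟨s, mem_univ _, hs⟩
    have h4 : (A.card : ℝ) ≤ ∑ s, ((B s).card : ℝ) := by exact_mod_cast h3
    refine h4.trans ((sum_le_sum fun s _ => h2 s).trans (le_of_eq ?_))
    rw [sum_const, card_univ, Fintype.card_fin, nsmul_eq_mul]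
    ring
  · intro p hp δ hδ hδ1
    obtain ⟨m, hm, h⟩ := lineFree_box (ZMod p) δ hδ hδ1
    refine ⟨m, hm, fun n r T k _ hkp J hJ hJm A F P hA hP hF => ?_⟩
    have h2 := h n r J hJ hJm A F P (fun s j => hP s j) hF (lineFree_of_apFree hkp hA)
    rw [ZMod.card, Fintype.card_fin] at h2
    refine h2.trans (le_of_eq ?_)
    ring

end Pool.Agent.Results.MP_b30443_co.BoundedWidthMachines
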