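import Pool.Agent.Q247.AC.Blocks
import Pool.Agent.Q247.AC.Line

set_option autoImplicit false

/-!
# Progression-free subsets of `F_p^n` and circuits of constant depth

Subsets of `F_p^n` without `k`-term arithmetic progressions (`k ≤ p`) which are decided by circuits of
constant depth and size `2 ^ ℓ` have at most `2 k p ^ n 2 ^ (2 ℓ + 6 - n / (2 k loss))` elements, and
*every* subset of `F_p^n` without `k`-term progressions has small relative density in every set `F`
decided by such a circuit, also if `F` has only `p ^ n 2 ^ (- c n / loss)` elements. Here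
`loss = d (2 ^ (d + 9) w (ℓ + 1)) ^ d`.

The proof: the points of a set decided by such a circuit have few sensitive coordinates, up to a very
small exceptional set (deduced from the tail bound for Boolean circuits by a random choice of a
combinatorial cube), so `F` is almost invariant under the translations in some block of `m`
coordinates, and in the cosets of these translations the density of `A` is at most that of the
largest progression-free subset of `F_p^m`.
-/

namespace Pool.Agent.Results.MP_b30443_co.ConstantDepthCircuits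

open Finset Function Pool.Agent.Q247.AC

/-- `A ⊆ F_p^n` contains no nontrivial `k`-term arithmetic progression
`x, x + y, …, x + (k - 1) y`, `y ≠ 0`. -/
def APFree (k : ℕ) {p n : ℕ} (A : Finset (Fin n → ZMod p)) : Prop :=
  ∀ x y : Fin n → ZMod p, (∀ j : ℕ, j < k → x + j • y ∈ A) → y = 0

/-- `F ⊆ F_p^n` is decided by a circuit of depth at most `d` with at most `2 ^ ℓ` nodes. The nodes are
arbitrary tests of one coordinate (of depth at least 1), AND and OR gates with any number of wires,
and arbitrary gates with at most `w` wires; negations are free. -/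
def Decided (w ℓ d : ℕ) {p n : ℕ} (F : Finset (Fin n → ZMod p)) : Prop :=
  ∃ (C : Circuit w n (ZMod p)) (o : C.Node), Nat.card C.Node ≤ 2 ^ ℓ ∧ (∀ v, C.depth v ≤ d) ∧
    ∀ x, x ∈ F ↔ C.val o x = true

/-- `loss w ℓ d = d (2 ^ (d + 9) w (ℓ + 1)) ^ d` -/
def loss (w ℓ d : ℕ) : ℕ := d * (2 ^ (d + 9) * (w * (ℓ + 1))) ^ d

theorem loss_eq (w ℓ d : ℕ) : ((loss w ℓ d : ℕ) : ℝ) = (d : ℝ) * Y347.CO.KK d w (ℓ + 1) := by
  rw [loss, Y347.CO.KK, Nat.cast_mul]

/-- the points of a block form a progression-free set -/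
theorem block_free {k p n m : ℕ} (hm : 0 < m) {A : Finset (Fin n → ZMod p)} (hA : APFree k A)
    (x : Fin n → ZMod p) {j : ℕ} (hj : j < n / m) [NeZero p] :
    APFree k ((univ : Finset (Fin m → ZMod p)).filter fun t => x + ext n hm j t ∈ A) := by
  intro t y h
  apply ext_eq_zero hm hj
  apply hA (x + ext n hm j t)
  intro i hi
  have h1 := (mem_filter.1 (h i hi)).2
  rw [ext_add, ext_nsmul, ← add_assoc] at h1
  exact h1

/-- **Theorem.** Let `p` be prime and `w, d ≥ 1`, `2 ≤ k ≤ p`.
(1) Let `A ⊆ F_p^n` be a union of `T` sets decided by circuits of depth `d` with `2 ^ ℓ` nodes. If `A`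
contains no `k`-term progression whose difference is a unit vector, then
`|A| ≤ 2 k T p^n 2^(2 ℓ + 6 - n / (2 k loss))`.
(2) Let `1 ≤ m ≤ n` and suppose that subsets of `F_p^m` without `k`-term progressions have at most `r`
elements. For every set `F ⊆ F_p^n` decided by such a circuit, every `A ⊆ F_p^n` without `k`-term
progressions and every `ε ≥ 0`,
`|A ∩ F| ≤ (r / p^m + ε) |F| + m p^n 2^(2 ℓ + 6 - ε ⌊n / m⌋ / loss)`.
(3) For every `δ > 0` there is `c > 0` (depending on `p` and `δ` only) such that for all `n`, all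
such `F` and all `A` without `k`-term progressions, `2 ≤ k ≤ p`,
`|A ∩ F| ≤ δ |F| + p^n 2^(2 ℓ + 1 / c - c n / loss)`. -/
theorem result :
    (∀ (p : ℕ) [Fact p.Prime] (n k w ℓ d T : ℕ), 2 ≤ k → k ≤ p → 1 ≤ w → 1 ≤ d →
      ∀ (A : Finset (Fin n → ZMod p)) (F : Fin T → Finset (Fin n → ZMod p)),
        (∀ (x : Fin n → ZMod p) (i : Fin n), ∃ j : ℕ, j < k ∧ x + j • Pi.single i 1 ∉ A) →
        (∀ s, Decided w ℓ d (F s)) → (∀ x, x ∈ A ↔ ∃ s, x ∈ F s) →
        (A.card : ℝ) ≤ 2 * k * T * p ^ n * (2 : ℝ) ^ (2 * ℓ + 6 - n / (2 * k * loss w ℓ d) : ℝ)) ∧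
    (∀ (p : ℕ) [Fact p.Prime] (n m k w ℓ d r : ℕ), 2 ≤ k → k ≤ p → 1 ≤ w → 1 ≤ d → 1 ≤ m →
      m ≤ n → (∀ B : Finset (Fin m → ZMod p), APFree k B → B.card ≤ r) →
      ∀ F A : Finset (Fin n → ZMod p), Decided w ℓ d F → APFree k A →
        ∀ ε : ℝ, 0 ≤ ε → ((A ∩ F).card : ℝ) ≤ (r / p ^ m + ε) * F.card +
          m * (p ^ n * (2 : ℝ) ^ (2 * ℓ + 6 - ε * (n / m : ℕ) / loss w ℓ d : ℝ))) ∧
    (∀ (p : ℕ) [Fact p.Prime] (δ : ℝ), 0 < δ → ∃ c : ℝ, 0 < c ∧ ∀ n k w ℓ d : ℕ, 2 ≤ k → k ≤ p →
      1 ≤ w → 1 ≤ d → ∀ F A : Finset (Fin n → ZMod p), Decided w ℓ d F → APFree k A →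
        ((A ∩ F).card : ℝ) ≤ δ * F.card +
          p ^ n * (2 : ℝ) ^ (2 * ℓ + 1 / c - c * n / loss w ℓ d : ℝ)) := by
  classical
  refine ⟨?_, ?_, ?_⟩
  · intro p hp n k w ℓ d T hk _ hw hd1 A F hA hF hun
    have hL1 : (0 : ℝ) < loss w ℓ d := by
      have h1 : 0 < loss w ℓ d := by
        unfold loss
        have : 0 < w * (ℓ + 1) := Nat.mul_pos hw (by omega)
        positivity
      exact_mod_cast h1
    have hk0 : (0 : ℝ) < k := by
      have : 0 < k := by omega
      exact_mod_cast this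
    have h1 : ∀ s, ((F s).card : ℝ) ≤
        2 * k * (p ^ n * (2 : ℝ) ^ (2 * ℓ + 6 - n / (2 * k * loss w ℓ d) : ℝ)) := by
      intro s
      obtain ⟨C, o, hs, hd, hCF⟩ := hF s
      have h := small_main C hw hd1 hs hd o (F s) hCF (c := k) (by omega)
        (fun j _ => Equiv.addRight ((j : ℕ) : ZMod p)) ?_
      · unfold err at h
        rw [ZMod.card, ← loss_eq] at h
        refine h.trans (le_of_eq ?_)
        have e : (n : ℝ) / (2 * k) / (loss w ℓ d) = n / (2 * k * loss w ℓ d) := by
          rw [div_div]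
        rw [e]
      · intro x _ i
        obtain ⟨j, hj, hxj⟩ := hA x i
        refine ⟨⟨j, hj⟩, fun hmem => hxj ((hun _).2 ⟨s, ?_⟩)⟩
        convert hmem using 1
        funext l
        rcases eq_or_ne l i with rfl | hl
        · rw [update_self]
          simp
        · rw [update_of_ne hl]
          simp [Pi.single_eq_of_ne hl]
    have h2 : A.card ≤ ∑ s, (F s).card := by
      refine (card_le_card (t := univ.biUnion F) fun x hx => ?_).trans card_biUnion_le
      obtain ⟨s, hs⟩ := (hun x).1 hx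
      exact mem_biUnion.2 ⟨s, mem_univ _, hs⟩
    have h3 : (A.card : ℝ) ≤ ∑ s, ((F s).card : ℝ) := by exact_mod_cast h2
    refine h3.trans ((sum_le_sum fun s _ => h1 s).trans (le_of_eq ?_))
    rw [sum_const, card_univ, Fintype.card_fin, nsmul_eq_mul]
    ring
  · intro p hp n m k w ℓ d r _ _ hw hd1 hm hmn hr F A hF hA ε hε
    obtain ⟨C, o, hs, hd, hCF⟩ := hF
    have h := rel_blocks C hw hd1 hs hd o F A hCF (by omega : 0 < m) hmn r
      (fun x j hj => hr _ (block_free (by omega) hA x hj)) hε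
    unfold err at h
    rw [ZMod.card, ← loss_eq] at h
    exact h
  · intro p hp δ hδ
    have hp1 : 1 < p := hp.out.one_lt
    obtain ⟨m, hm, hline⟩ := dens_line p (δ / 2) (by positivity)
    obtain ⟨c, hc, h⟩ := rel_delta (X := ZMod p) δ hδ (m := m) (by omega)
    refine ⟨c, hc, fun n k w ℓ d hk hkp hw hd1 F A hF hA => ?_⟩
    obtain ⟨C, o, hs, hd, hCF⟩ := hF
    have h1 := h n w ℓ d C hw hd1 hs hd o F A hCF (fun x j hj => by
      rw [ZMod.card]
      refine hline m le_rfl _ (fun t y hty => ?_) hp1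
      refine block_free (by omega) hA x hj t y fun i hi => ?_
      have h2 := hty (i : ZMod p)
      rwa [Nat.cast_smul_eq_nsmul] at h2)
    rw [ZMod.card, ← loss_eq] at h1
    exact h1

end Pool.Agent.Results.MP_b30443_co.ConstantDepthCircuits
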