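import Pool.Agent.Q274.LS.Count
import Pool.Agent.Q274.TWD.Card

/-!
# Progression-free sets whose addition table is covered by few rectangles or has small twin-width
-/

set_option autoImplicit false

namespace Pool.Agent.Results.MP_b30443_co.SumRectangles

open Finset Pool.Agent.Q274.TWD Pool.Agent.Y422.TW

/-- `A` contains no nontrivial `k`-term arithmetic progression. -/
def APFree {p n : ℕ} (k : ℕ) (A : Finset (Fin n → ZMod p)) : Prop :=
  ∀ x y : Fin n → ZMod p, (∀ i < k, x + i • y ∈ A) → y = 0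

/-- The relation `F` is given by adjacency in a finite graph of twin-width at most `w`: for some
maps `f`, `g` into the vertices `F x y` holds if and only if `f x` and `g y` are adjacent. (For
instance the vertices are the rows and the columns of `F` and the graph is the bipartite graph
of `F`.) -/
def HasTwinWidth {X Y : Type} (F : X → Y → Prop) (w : ℕ) : Prop :=
  ∃ (V : Type) (_ : Fintype V) (H : SimpleGraph V) (f : X → V) (g : Y → V),
    TwinWidthLE H w ∧ ∀ x y, F x y ↔ H.Adj (f x) (g y)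

/-- The relation `F` is the union of `T` product sets `P t × R t` (its nondeterministic
communication complexity is at most `log₂ T`). -/
def HasCover {X Y : Type} (F : X → Y → Prop) (T : ℕ) : Prop :=
  ∃ (P : Fin T → Finset X) (R : Fin T → Finset Y), ∀ x y, F x y ↔ ∃ t, x ∈ P t ∧ y ∈ R t

variable {p : ℕ} [Fact p.Prime]

theorem noline {n k : ℕ} {A : Finset (Fin n → ZMod p)} (hA : APFree k A)
    {P R : Finset (Fin n → ZMod p)} (h : ∀ a ∈ P, ∀ b ∈ R, a + b ∈ A)
    (x d : Fin n → ZMod p) (hl : ∀ j : ZMod p, ∃ a ∈ P, ∃ b ∈ R, a + b = x + j • d) : d = 0 := by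
  refine hA x d fun i _ => ?_
  obtain ⟨a, ha, b, hb, hab⟩ := hl (i : ZMod p)
  rw [← Nat.cast_smul_eq_nsmul (ZMod p) i d, ← hab]
  exact h a ha b hb

theorem card_pairs {n : ℕ} (A : Finset (Fin n → ZMod p)) :
    num (fun x y : Fin n → ZMod p => x + y ∈ A) = A.card * p ^ n := by
  have h1 : num (fun x y : Fin n → ZMod p => x + y ∈ A)
      = (A ×ˢ (univ : Finset (Fin n → ZMod p))).card := by
    refine num_eq_card _ _
      { toFun := fun q => (q.1 + q.2, q.2)
        invFun := fun q => (q.1 - q.2, q.2)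
        left_inv := fun q => by simp
        right_inv := fun q => by simp } fun x y => ?_
    simp
  rw [h1, card_product, card_univ]
  simp [ZMod.card]

theorem num_le_cover {X Y : Type} [Fintype X] [Fintype Y] (F : X → Y → Prop) {T : ℕ}
    (P : Fin T → Finset X) (R : Fin T → Finset Y)
    (hF : ∀ x y, F x y → ∃ t, x ∈ P t ∧ y ∈ R t) :
    num F ≤ ∑ t, (P t).card * (R t).card := by
  classical
  rw [num_eq]
  refine (card_le_card (t := univ.biUnion fun t => P t ×ˢ R t) ?_).trans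
    (card_biUnion_le.trans (sum_le_sum fun t _ => by rw [card_product]))
  intro q hq
  rw [mem_filter] at hq
  obtain ⟨t, ht1, ht2⟩ := hF q.1 q.2 hq.2
  exact mem_biUnion.2 ⟨t, mem_univ t, mem_product.2 ⟨ht1, ht2⟩⟩

theorem of_diff {n : ℕ} {A : Finset (Fin n → ZMod p)} {w : ℕ}
    (h : HasTwinWidth (fun x y : Fin n → ZMod p => x - y ∈ A) w) :
    HasTwinWidth (fun x y : Fin n → ZMod p => x + y ∈ A) w := by
  obtain ⟨V, iV, H, f, g, hw, hF⟩ := h
  refine ⟨V, iV, H, f, fun y => g (-y), hw, fun x y => ?_⟩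
  rw [← hF]
  simp only [sub_neg_eq_add]

theorem cover_of_diff {n : ℕ} {A : Finset (Fin n → ZMod p)} {T : ℕ}
    (h : HasCover (fun x y : Fin n → ZMod p => x - y ∈ A) T) :
    HasCover (fun x y : Fin n → ZMod p => x + y ∈ A) T := by
  obtain ⟨P, R, hF⟩ := h
  refine ⟨P, fun t => (R t).image (fun y => -y), fun x y => ?_⟩
  have := hF x (-y)
  simp only [sub_neg_eq_add] at this
  simp only [this]
  refine exists_congr fun t => and_congr_right fun _ => ?_
  rw [mem_image]
  constructor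
  · intro h
    exact ⟨-y, h, neg_neg y⟩
  · rintro ⟨z, hz, rfl⟩
    rwa [neg_neg]

/-- **Power saving for progression-free sets whose addition (or subtraction) table is simple.**
For every prime `p` there is `ρ < p` such that for all `n`, `k` and every `A ⊆ F_p^n` without a
nontrivial `k`-term progression:
(1) if `P + R ⊆ A` then `|P| |R| ≤ 8 (p ρ)^n`;
(2) if the relation `x + y ∈ A` (or `x - y ∈ A`) is a union of `T` product sets then
`|A| ≤ 8 T ρ^n`;
(3) if the relation `x + y ∈ A` (or `x - y ∈ A`) has twin-width at most `w` then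
`|A|³ ≤ 4096 (w + 1) (p² ρ)^n`. -/
theorem result (p : ℕ) [Fact p.Prime] :
    ∃ ρ : ℝ, 1 ≤ ρ ∧ ρ < p ∧ ∀ (n k : ℕ) (A : Finset (Fin n → ZMod p)), APFree k A →
      (∀ P R : Finset (Fin n → ZMod p), (∀ a ∈ P, ∀ b ∈ R, a + b ∈ A) →
        (P.card : ℝ) * R.card ≤ 8 * (p * ρ) ^ n) ∧
      (∀ T : ℕ, (HasCover (fun x y : Fin n → ZMod p => x + y ∈ A) T ∨
          HasCover (fun x y : Fin n → ZMod p => x - y ∈ A) T) →
        (A.card : ℝ) ≤ 8 * T * ρ ^ n) ∧
      (∀ w : ℕ, (HasTwinWidth (fun x y : Fin n → ZMod p => x + y ∈ A) w ∨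
          HasTwinWidth (fun x y : Fin n → ZMod p => x - y ∈ A) w) →
        (A.card : ℝ) ^ 3 ≤ 4096 * (w + 1) * (p ^ 2 * ρ) ^ n) := by
  classical
  obtain ⟨ρ, h1, h2, h3⟩ := Pool.Agent.Q274.LS.power_saving p
  refine ⟨ρ, h1, h2, fun n k A hA => ?_⟩
  have hrect : ∀ P R : Finset (Fin n → ZMod p), (∀ a ∈ P, ∀ b ∈ R, a + b ∈ A) →
      (P.card : ℝ) * R.card ≤ 8 * (p * ρ) ^ n := fun P R h =>
    h3 n P R (fun x d hl => noline hA h x d hl)
  have hp0 : (0 : ℝ) < (p : ℝ) ^ n := by
    have : (0 : ℝ) < p := by linarith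
    positivity
  have hcardV : (Fintype.card (Fin n → ZMod p)) = p ^ n := by simp [ZMod.card]
  refine ⟨hrect, ?_, ?_⟩
  · intro T hT
    have hT' : HasCover (fun x y : Fin n → ZMod p => x + y ∈ A) T := by
      rcases hT with h | h
      · exact h
      · exact cover_of_diff h
    obtain ⟨P, R, hF⟩ := hT'
    have e1 : A.card * p ^ n ≤ ∑ t, (P t).card * (R t).card := by
      rw [← card_pairs]
      exact num_le_cover _ P R fun x y h => (hF x y).1 h
    have e2 : (A.card : ℝ) * (p : ℝ) ^ n ≤ ∑ t, ((P t).card : ℝ) * (R t).card := by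
      exact_mod_cast e1
    have e3 : ∑ t, ((P t).card : ℝ) * (R t).card ≤ T * (8 * (p * ρ) ^ n) := by
      have := sum_le_card_nsmul univ (fun t => ((P t).card : ℝ) * (R t).card) (8 * (p * ρ) ^ n)
        (fun t _ => hrect _ _ fun a ha b hb => (hF a b).2 ⟨t, ha, hb⟩)
      simpa [card_univ, nsmul_eq_mul] using this
    have e4 : (A.card : ℝ) * (p : ℝ) ^ n ≤ (8 * T * ρ ^ n) * (p : ℝ) ^ n := by
      refine (e2.trans e3).trans (le_of_eq ?_)
      rw [mul_pow]
      ring
    exact le_of_mul_le_mul_right e4 hp0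
  · intro w hw
    have hw' : HasTwinWidth (fun x y : Fin n → ZMod p => x + y ∈ A) w := by
      rcases hw with h | h
      · exact h
      · exact of_diff h
    obtain ⟨V, _, H, f, g, hw, hF⟩ := hw'
    obtain ⟨P, R, hPR, hc⟩ := dense_rect' H w hw f g _ hF
    rw [card_pairs, hcardV] at hc
    have e1 : ((A.card : ℝ) * (p : ℝ) ^ n) ^ 3
        ≤ 512 * (w + 1) * ((p : ℝ) ^ n * (p : ℝ) ^ n) ^ 2 * ((P.card : ℝ) * R.card) := by
      exact_mod_cast hc
    have e2 := hrect P R hPR
    have e3 : (A.card : ℝ) ^ 3 * ((p : ℝ) ^ n) ^ 3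
        ≤ (4096 * (w + 1) * (p ^ 2 * ρ) ^ n) * ((p : ℝ) ^ n) ^ 3 := by
      calc (A.card : ℝ) ^ 3 * ((p : ℝ) ^ n) ^ 3 = ((A.card : ℝ) * (p : ℝ) ^ n) ^ 3 := by ring
        _ ≤ 512 * (w + 1) * ((p : ℝ) ^ n * (p : ℝ) ^ n) ^ 2 * (8 * (p * ρ) ^ n) := by
            refine e1.trans ?_
            exact mul_le_mul_of_nonneg_left e2 (by positivity)
        _ = _ := by
            have e4 : ((p : ℝ) ^ 2) ^ n = ((p : ℝ) ^ n) ^ 2 := by
              rw [← pow_mul, ← pow_mul, mul_comm]
            rw [mul_pow (p : ℝ) ρ n, mul_pow ((p : ℝ) ^ 2) ρ n, e4]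
            ring
    exact le_of_mul_le_mul_right e3 (by positivity)

end Pool.Agent.Results.MP_b30443_co.SumRectangles
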